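import Pool.Agent.FS.NoLUR.Seq
import Pool.Agent.Lib.MP_95bae3_an.FC.Lett
import Pool.Agent.Lib.MP_95bae3_an.FC.Fun
import Pool.Agent.Lib.MP_95bae3_an.FC.Neg

/-! Every infinite countable group acts on a separable Banach space that has no invariant locally
uniformly rotund renorming. -/

set_option autoImplicit false

namespace Pool.Agent.FS.NoLUR

open Pool.Agent.Lib.MP_95bae3_an Pool.Agent.Lib.MP_95bae3_an.FC

theorem nl_sum_le {𝕜 X : Type} [RCLike 𝕜] [NormedAddCommGroup X] [NormedSpace 𝕜 X]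
    (N : Seminorm 𝕜 X) (u : ℕ → X) (r : ℝ) (h : ∀ k, N (u k) ≤ r) (M : ℕ) :
    N (∑ k ∈ Finset.range M, u k) ≤ M * r := by
  induction M with
  | zero => simp
  | succ M ih =>
    rw [Finset.sum_range_succ]
    refine (map_add_le_add N _ _).trans ?_
    have := h M
    push_cast
    linarith

theorem nl_ana {𝕜 X : Type} [RCLike 𝕜] [NormedAddCommGroup X] [NormedSpace 𝕜 X]
    (N : Seminorm 𝕜 X) {α β : ℝ} (hα : 0 < α) (hβ : 0 < β)
    (hN : ∀ x, α * ‖x‖ ≤ N x ∧ N x ≤ β * ‖x‖) (F : X) (y : ℕ → X) (h1 : ∀ k, N (y k) = N F)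
    (h2 : ∀ k, 1 ≤ ‖F - y k‖) (h3 : ∀ M, ‖∑ k ∈ Finset.range M, (F - y k)‖ ≤ 3) :
    ∃ x, N x = 1 ∧ ∃ ε : ℝ, 0 < ε ∧ ∀ δ : ℝ, 0 < δ → ∃ z, N z = 1 ∧
      1 - δ < N ((1 / 2 : 𝕜) • (x + z)) ∧ ε ≤ N (x - z) := by
  have hd : ∀ k, α ≤ N (F - y k) := fun k => by
    have := (hN (F - y k)).1
    nlinarith [h2 k]
  have hF : 0 < N F := by
    have a := hd 0
    have b := map_sub_le_add N F (y 0)
    rw [h1 0] at b
    linarith
  obtain ⟨c, hc⟩ : ∃ c : 𝕜, c = (((N F)⁻¹ : ℝ) : 𝕜) := ⟨_, rfl⟩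
  have hcn : ‖c‖ = (N F)⁻¹ := by rw [hc, RCLike.norm_ofReal, abs_of_pos (inv_pos.2 hF)]
  have hh : ‖(1 / 2 : 𝕜)‖ = 1 / 2 := by rw [norm_div, norm_one, RCLike.norm_two]
  refine ⟨c • F, by rw [map_smul_eq_mul, hcn, inv_mul_cancel₀ hF.ne'], (N F)⁻¹ * α,
    by positivity, fun δ hδ => ?_⟩
  have key : ∃ k, (1 - δ) * N F < N ((1 / 2 : 𝕜) • (F + y k)) := by
    by_contra hc
    push Not at hc
    obtain ⟨M, hM⟩ := exists_nat_gt (3 * β / (δ * N F))
    have a := nl_sum_le N _ _ hc M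
    have e : (M : 𝕜) • F = ∑ k ∈ Finset.range M, (1 / 2 : 𝕜) • (F + y k) +
        (1 / 2 : 𝕜) • ∑ k ∈ Finset.range M, (F - y k) := by
      rw [Finset.smul_sum, ← Finset.sum_add_distrib]
      have : ∀ k, (1 / 2 : 𝕜) • (F + y k) + (1 / 2 : 𝕜) • (F - y k) = F := fun k => by
        rw [← smul_add, add_add_sub_cancel, ← two_smul 𝕜 F, smul_smul]
        norm_num
      simp only [this, Finset.sum_const, Finset.card_range, Nat.cast_smul_eq_nsmul]
    have b : N ((M : 𝕜) • F) = M * N F := by rw [map_smul_eq_mul, RCLike.norm_natCast]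
    have d := map_add_le_add N (∑ k ∈ Finset.range M, (1 / 2 : 𝕜) • (F + y k))
      ((1 / 2 : 𝕜) • ∑ k ∈ Finset.range M, (F - y k))
    rw [← e, b, map_smul_eq_mul, hh] at d
    have f := (hN (∑ k ∈ Finset.range M, (F - y k))).2
    have g := mul_le_mul_of_nonneg_left (h3 M) hβ.le
    rw [div_lt_iff₀ (by positivity)] at hM
    nlinarith
  obtain ⟨k, hk⟩ := key
  refine ⟨c • y k, by rw [map_smul_eq_mul, hcn, h1, inv_mul_cancel₀ hF.ne'], ?_, ?_⟩
  · rw [← smul_add, smul_comm, map_smul_eq_mul, hcn, lt_inv_mul_iff₀ hF, mul_comm]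
    exact hk
  · rw [← smul_sub, map_smul_eq_mul, hcn]
    exact mul_le_mul_of_nonneg_left (hd k) (inv_pos.2 hF).le

theorem nl_abel {G : Type} [Group G] [Infinite G] (hD : (fc G).FiniteIndex) :
    ∃ (A : Type) (_ : CommGroup A) (φ : A →* G), Infinite A ∧ Function.Injective φ := by
  classical
  obtain ⟨f, -, hf⟩ := exists_seq_of_forall_finset_exists (fun x : G => x ∈ fc G)
    (fun x y => Commute x y ∧ x ≠ y) (fun s hs => by
      have h1 : (⨅ x ∈ s, Subgroup.centralizer ({x} : Set G)).FiniteIndex :=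
        Subgroup.finiteIndex_iInf' _ fun x hx => hs x hx
      let K : Subgroup G := fc G ⊓ ⨅ x ∈ s, Subgroup.centralizer ({x} : Set G)
      have h2 : K.FiniteIndex := inferInstance
      have h3 : (K : Set G).Infinite := by
        intro hfin
        have : Finite K := hfin
        have a := K.card_mul_index
        rw [Nat.card_eq_zero_of_infinite (α := G)] at a
        rcases mul_eq_zero.1 a with a | a
        · exact Nat.card_pos.ne' a
        · exact h2.index_ne_zero a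
      obtain ⟨y, hy, hys⟩ := h3.exists_notMem_finset s
      refine ⟨y, hy.1, fun x hx => ⟨?_, fun e => hys (e ▸ hx)⟩⟩
      have h4 : y ∈ Subgroup.centralizer ({x} : Set G) :=
        Subgroup.mem_iInf.1 (Subgroup.mem_iInf.1 hy.2 x) hx
      exact (Subgroup.mem_centralizer_singleton_iff.1 h4).symm)
  have hc : ∀ x ∈ Set.range f, ∀ y ∈ Set.range f, x * y = y * x := by
    rintro _ ⟨m, rfl⟩ _ ⟨n, rfl⟩
    rcases lt_trichotomy m n with h | rfl | h
    · exact (hf m n h).1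
    · rfl
    · exact (hf n m h).1.symm
  have hi : Function.Injective f := fun m n e => by
    rcases lt_trichotomy m n with h | h | h
    · exact absurd e (hf m n h).2
    · exact h
    · exact absurd e.symm (hf n m h).2
  let B := Subgroup.closure (Set.range f)
  have hB : ∀ a b : B, a * b = b * a := fun a b =>
    Subtype.ext (Subgroup.closure_induction₂ (p := fun x y _ _ => Commute x y)
      (fun x y hx hy => hc x hx y hy) (fun x _ => Commute.one_left x)
      (fun x _ => Commute.one_right x) (fun _ _ _ _ _ _ h1 h2 => h1.mul_left h2)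
      (fun _ _ _ _ _ _ h1 h2 => h1.mul_right h2) (fun _ _ _ _ h => h.inv_left)
      (fun _ _ _ _ h => h.inv_right) a.2 b.2)
  refine ⟨B, { (inferInstance : Group B) with mul_comm := hB }, B.subtype, ?_,
    Subtype.val_injective⟩
  exact Infinite.of_injective (fun n => (⟨f n, Subgroup.subset_closure ⟨n, rfl⟩⟩ : B))
    fun m n e => hi (congrArg Subtype.val e)

theorem nl_fun {G A : Type} [Group G] [CommGroup A] [Infinite A] (φ : A →* G)
    (hφ : Function.Injective φ) : ∃ (g : ℕ → G) (l : ℕ → G → ℝ),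
    (∀ m x, 0 ≤ l m x ∧ l m x ≤ 1) ∧ (∀ m, l m 1 = 0) ∧ (∀ m, l m (g m) = 1) ∧
    ∀ m k x, k ≠ m → |l m (x * g k) - l m x| ≤ 1 / 2 ^ k := by
  obtain ⟨g, l, h1, h2, h3, h4⟩ := nl_len (A := A)
  refine ⟨fun k => φ (g k), fun m => Function.extend φ (l m) fun _ => 1, fun m x => ?_,
    fun m => ?_, fun m => ?_, fun m k x hk => ?_⟩ <;> beta_reduce
  · by_cases h : ∃ a, φ a = x
    · obtain ⟨a, rfl⟩ := h
      rw [hφ.extend_apply]
      exact h1 m a
    · rw [Function.extend_apply' _ _ _ h]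
      exact ⟨zero_le_one, le_rfl⟩
  · rw [← map_one φ, hφ.extend_apply, h2]
  · rw [hφ.extend_apply, h3]
  · by_cases h : ∃ a, φ a = x
    · obtain ⟨a, rfl⟩ := h
      rw [← map_mul, hφ.extend_apply, hφ.extend_apply]
      exact h4 m k a hk
    · have h' : ¬ ∃ a, φ a = x * φ (g k) := fun ⟨a, ha⟩ =>
        h ⟨a * (g k)⁻¹, by rw [map_mul, map_inv, ha, mul_inv_cancel_right]⟩
      rw [Function.extend_apply' _ _ _ h, Function.extend_apply' _ _ _ h', sub_self, abs_zero]
      positivity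

theorem nl_geo (M : ℕ) : ∑ k ∈ Finset.range M, (1 : ℝ) / 2 ^ k ≤ 2 := by
  have : ∑ k ∈ Finset.range M, (1 : ℝ) / 2 ^ k = 2 - 2 / 2 ^ M := by
    induction M with
    | zero => norm_num
    | succ M ih =>
      rw [Finset.sum_range_succ, ih, pow_succ]
      field_simp
      ring
  rw [this]
  have : (0 : ℝ) ≤ 2 / 2 ^ M := by positivity
  linarith

theorem main (𝕜 : Type) [RCLike 𝕜] (G : Type) [Group G] [Countable G] [Infinite G] :
    ∃ (X : Type) (_ : NormedAddCommGroup X) (_ : NormedSpace 𝕜 X),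
      CompleteSpace X ∧ TopologicalSpace.SeparableSpace X ∧
      ∃ ρ : G →* (X ≃ₗᵢ[𝕜] X), ∀ N : Seminorm 𝕜 X,
        (∃ a b : ℝ, 0 < a ∧ 0 < b ∧ ∀ x, a * ‖x‖ ≤ N x ∧ N x ≤ b * ‖x‖) →
        (∀ g x, N (ρ g x) = N x) →
        ∃ x, N x = 1 ∧ ∃ ε : ℝ, 0 < ε ∧ ∀ δ : ℝ, 0 < δ → ∃ y, N y = 1 ∧
          1 - δ < N ((1 / 2 : 𝕜) • (x + y)) ∧ ε ≤ N (x - y) := by
  classical
  by_cases hD : (fc G).FiniteIndex
  · obtain ⟨A, _, φ, _, hφ⟩ := nl_abel hD
    obtain ⟨g, l, h1, h2, h3, h4⟩ := nl_fun φ hφ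
    let Γ := G × Multiplicative ℤ
    have _ : Countable (Multiplicative ℤ) := inferInstanceAs (Countable ℤ)
    let _ : TopologicalSpace Γ := ⊥
    have _ : DiscreteTopology Γ := ⟨rfl⟩
    let F : BoundedContinuousFunction Γ 𝕜 :=
      BoundedContinuousFunction.ofNormedAddCommGroupDiscrete
        (fun x => ((l (Multiplicative.toAdd x.2).toNat x.1 : ℝ) : 𝕜)) 1
        (fun x => by rw [RCLike.norm_ofReal, abs_of_nonneg (h1 _ _).1]; exact (h1 _ _).2)
    let m : K.orb F := ⟨F, K.self_mem_orb F⟩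
    let ρ : G →* (K.orb F ≃ₗᵢ[𝕜] K.orb F) := (K.rho F).comp (MonoidHom.inl G (Multiplicative ℤ))
    have hv : ∀ k (x : Γ), (m - ρ (g k) m).1 x =
        ((l (Multiplicative.toAdd x.2).toNat x.1 -
          l (Multiplicative.toAdd x.2).toNat (x.1 * g k) : ℝ) : 𝕜) := by
      intro k x
      show ((l (Multiplicative.toAdd x.2).toNat x.1 : ℝ) : 𝕜) -
        ((l (Multiplicative.toAdd (x.2 * 1)).toNat (x.1 * g k) : ℝ) : 𝕜) = _
      rw [mul_one, RCLike.ofReal_sub]
    refine ⟨K.orb F, inferInstance, inferInstance, inferInstance, inferInstance, ρ, ?_⟩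
    rintro N ⟨α, β, hα, hβ, hN⟩ hinv
    refine nl_ana N hα hβ hN m (fun k => ρ (g k) m) (fun k => hinv _ _) (fun k => ?_) fun M => ?_
    · have a := (m - ρ (g k) m).1.norm_coe_le_norm ((1, Multiplicative.ofAdd (k : ℤ)) : Γ)
      rw [hv] at a
      simp only [toAdd_ofAdd, Int.toNat_natCast, one_mul, h2, h3, RCLike.norm_ofReal] at a
      simpa using a
    · show ‖(∑ k ∈ Finset.range M, (m - ρ (g k) m)).1‖ ≤ 3
      refine (BoundedContinuousFunction.norm_le (by norm_num)).2 fun x => ?_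
      rw [Submodule.coe_sum, BoundedContinuousFunction.sum_apply]
      refine (norm_sum_le _ _).trans ?_
      set j := (Multiplicative.toAdd x.2).toNat with hj
      have b : ∀ k ∈ Finset.range M, ‖(m - ρ (g k) m).1 x‖ ≤
          1 / 2 ^ k + if k = j then 1 else 0 := by
        intro k _
        rw [hv, RCLike.norm_ofReal, ← hj]
        split_ifs with e
        · have c1 := h1 j x.1
          have c2 := h1 j (x.1 * g k)
          have c3 : (0 : ℝ) ≤ 1 / 2 ^ k := by positivity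
          rw [abs_le]
          constructor <;> linarith [c1.1, c1.2, c2.1, c2.2]
        · rw [abs_sub_comm, add_zero]
          exact h4 j k x.1 e
      refine (Finset.sum_le_sum b).trans ?_
      rw [Finset.sum_add_distrib, Finset.sum_ite_eq']
      have := nl_geo M
      split_ifs <;> linarith
  · obtain ⟨a, L⟩ := exists_letters hD
    obtain ⟨f, hf, hav⟩ := exists_fun L
    obtain ⟨X, _, _, c1, c2, ρ, hX⟩ := neg 𝕜 a f hf hav
    refine ⟨X, inferInstance, inferInstance, c1, c2, ρ, fun N h1 h2 => ?_⟩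
    obtain ⟨x, y, hx, hy, hne, he⟩ := hX N h1 h2
    obtain ⟨α, β, hα, -, hN⟩ := h1
    refine ⟨x, hx, N (x - y), ?_, fun δ hδ => ⟨y, hy, by rw [he]; linarith, le_rfl⟩⟩
    exact lt_of_lt_of_le (mul_pos hα (norm_pos_iff.2 (sub_ne_zero.2 hne))) (hN _).1

end Pool.Agent.FS.NoLUR
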