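import Mathlib

/-! A finite group of isometries of a separable normed space leaves a locally uniformly rotund
equivalent norm invariant. -/

set_option autoImplicit false

namespace Pool.Agent.FS.NoLUR

variable {𝕜 X : Type} [RCLike 𝕜] [NormedAddCommGroup X] [NormedSpace 𝕜 X]

theorem kd_l2 {ι : Type} (w : ι → ℝ) (hw : ∀ i, 0 ≤ w i) (hs : Summable w)
    (p : ι → Seminorm 𝕜 X) (hp : ∀ i x, p i x ≤ ‖x‖) (i0 : ι) (h0 : w i0 = 1)
    (h1 : ∀ x, p i0 x = ‖x‖) :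
    ∃ N : Seminorm 𝕜 X, (∀ x, N x ^ 2 = ∑' i, w i * p i x ^ 2) ∧ (∀ x, ‖x‖ ≤ N x) ∧
      (∀ x, N x ≤ √(∑' i, w i) * ‖x‖) ∧ ∀ x y i,
        w i * (2 * p i x ^ 2 + 2 * p i y ^ 2 - p i (x + y) ^ 2) ≤
          2 * N x ^ 2 + 2 * N y ^ 2 - N (x + y) ^ 2 := by
  have hb : ∀ x i, w i * p i x ^ 2 ≤ w i * ‖x‖ ^ 2 := fun x i =>
    mul_le_mul_of_nonneg_left (pow_le_pow_left₀ (apply_nonneg _ _) (hp i x) 2) (hw i)
  have hn : ∀ x i, 0 ≤ w i * p i x ^ 2 := fun x i => mul_nonneg (hw i) (sq_nonneg _)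
  have hS : ∀ x, Summable fun i => w i * p i x ^ 2 := fun x =>
    Summable.of_nonneg_of_le (hn x) (hb x) (hs.mul_right _)
  let Q : X → ℝ := fun x => ∑' i, w i * p i x ^ 2
  have hQ : ∀ x, 0 ≤ Q x := fun x => tsum_nonneg (hn x)
  have hlo : ∀ x, ‖x‖ ≤ √(Q x) := fun x => by
    refine Real.le_sqrt_of_sq_le ?_
    have := (hS x).le_tsum i0 fun j _ => hn x j
    rwa [h0, h1, one_mul] at this
  have hadd : ∀ x y, √(Q (x + y)) ≤ √(Q x) + √(Q y) := by
    intro x y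
    by_cases hx : x = 0
    · rw [hx, zero_add]
      exact le_add_of_nonneg_left (Real.sqrt_nonneg _)
    by_cases hy : y = 0
    · rw [hy, add_zero]
      exact le_add_of_nonneg_right (Real.sqrt_nonneg _)
    have a : 0 < √(Q x) := (norm_pos_iff.2 hx).trans_le (hlo x)
    have b : 0 < √(Q y) := (norm_pos_iff.2 hy).trans_le (hlo y)
    obtain ⟨t, ht⟩ : ∃ t : ℝ, t = √(Q y) / √(Q x) := ⟨_, rfl⟩
    have t0 : 0 < t := ht ▸ div_pos b a
    refine Real.sqrt_le_iff.2 ⟨by positivity, ?_⟩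
    have c : Q (x + y) ≤ (1 + t) * Q x + (1 + t⁻¹) * Q y := by
      simp only [Q]
      rw [← tsum_mul_left, ← tsum_mul_left,
        ← ((hS x).mul_left _).tsum_add ((hS y).mul_left _)]
      refine (hS _).tsum_le_tsum (fun i => ?_) (((hS x).mul_left _).add ((hS y).mul_left _))
      have d : p i (x + y) ^ 2 ≤ (p i x + p i y) ^ 2 :=
        pow_le_pow_left₀ (apply_nonneg _ _) (map_add_le_add _ _ _) 2
      have e : 2 * p i x * p i y ≤ t * p i x ^ 2 + t⁻¹ * p i y ^ 2 := by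
        have : t * p i x ^ 2 + t⁻¹ * p i y ^ 2 - 2 * p i x * p i y =
            t⁻¹ * (t * p i x - p i y) ^ 2 := by
          field_simp
          ring
        have : 0 ≤ t⁻¹ * (t * p i x - p i y) ^ 2 := by positivity
        linarith
      have f : p i (x + y) ^ 2 ≤ (1 + t) * p i x ^ 2 + (1 + t⁻¹) * p i y ^ 2 := by nlinarith
      nlinarith [mul_le_mul_of_nonneg_left f (hw i)]
    refine c.trans (le_of_eq ?_)
    have e1 := Real.sq_sqrt (hQ x)
    have e2 := Real.sq_sqrt (hQ y)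
    generalize √(Q x) = u at *
    generalize √(Q y) = v at *
    rw [← e1, ← e2, ht]
    field_simp
    ring
  have hsm : ∀ (c : 𝕜) x, √(Q (c • x)) = ‖c‖ * √(Q x) := by
    intro c x
    have : Q (c • x) = ‖c‖ ^ 2 * Q x := by
      simp only [Q]
      rw [← tsum_mul_left]
      refine tsum_congr fun i => ?_
      rw [map_smul_eq_mul]
      ring
    rw [this, Real.sqrt_mul (sq_nonneg _), Real.sqrt_sq (norm_nonneg _)]
  have hsq : ∀ x, Seminorm.of (fun x => √(Q x)) hadd hsm x ^ 2 = Q x := fun x =>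
    Real.sq_sqrt (hQ x)
  refine ⟨Seminorm.of (fun x => √(Q x)) hadd hsm, hsq, hlo, fun x => ?_, fun x y i => ?_⟩
  · show √(Q x) ≤ _
    rw [← Real.sqrt_sq (norm_nonneg x), ← Real.sqrt_mul (tsum_nonneg hw), ← tsum_mul_right]
    exact Real.sqrt_le_sqrt ((hS x).tsum_le_tsum (hb x) (hs.mul_right _))
  · rw [hsq, hsq, hsq]
    simp only [Q]
    have s1 := ((hS x).mul_left 2).add ((hS y).mul_left 2)
    rw [← tsum_mul_left, ← tsum_mul_left, ← ((hS x).mul_left 2).tsum_add ((hS y).mul_left 2),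
      ← s1.tsum_sub (hS _)]
    refine le_of_eq_of_le (by ring) ((s1.sub (hS (x + y))).le_tsum i fun j _ => ?_)
    have d : p j (x + y) ^ 2 ≤ (p j x + p j y) ^ 2 :=
      pow_le_pow_left₀ (apply_nonneg _ _) (map_add_le_add _ _ _) 2
    have f : 0 ≤ 2 * p j x ^ 2 + 2 * p j y ^ 2 - p j (x + y) ^ 2 := by
      nlinarith [sq_nonneg (p j x - p j y)]
    nlinarith [mul_nonneg (hw j) f]

theorem kd_fin (E : Submodule 𝕜 X) [FiniteDimensional 𝕜 E] (f : ℕ → StrongDual 𝕜 X)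
    (hf : ∀ v : X, ‖v‖ = 1 → ∃ i, 1 / 2 < ‖f i v‖) :
    ∃ M : ℕ, ∀ v ∈ E, ∃ i ≤ M, ‖v‖ ≤ 2 * ‖f i v‖ := by
  have : ProperSpace E := FiniteDimensional.proper_rclike 𝕜 E
  obtain ⟨t, ht⟩ := (isCompact_sphere (0 : E) 1).elim_finite_subcover
    (fun i => {v : E | 1 / 2 < ‖f i v‖})
    (fun i => isOpen_lt continuous_const ((f i).continuous.comp continuous_subtype_val).norm)
    (fun v hv => Set.mem_iUnion.2 (hf v (by simpa using hv)))
  refine ⟨t.sup id, fun v hv => ?_⟩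
  by_cases h0 : v = 0
  · exact ⟨0, Nat.zero_le _, by simp [h0]⟩
  have hp : 0 < ‖v‖ := norm_pos_iff.2 h0
  obtain ⟨c, hc⟩ : ∃ c : 𝕜, c = ((‖v‖⁻¹ : ℝ) : 𝕜) := ⟨_, rfl⟩
  have hcn : ‖c‖ = ‖v‖⁻¹ := by rw [hc, RCLike.norm_ofReal, abs_of_pos (inv_pos.2 hp)]
  have hm : (⟨c • v, E.smul_mem c hv⟩ : E) ∈ Metric.sphere (0 : E) 1 := by
    rw [mem_sphere_zero_iff_norm]
    show ‖c • v‖ = 1
    rw [norm_smul, hcn, inv_mul_cancel₀ hp.ne']
  obtain ⟨i, hi, h⟩ := Set.mem_iUnion₂.1 (ht hm)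
  refine ⟨i, Finset.le_sup (f := id) hi, ?_⟩
  have h2 : 1 / 2 < ‖f i (c • v)‖ := h
  rw [map_smul, norm_smul, hcn, lt_inv_mul_iff₀ hp] at h2
  linarith

theorem kadec {G : Type} [Group G] [Finite G] [TopologicalSpace.SeparableSpace X]
    (ρ : G →* (X ≃ₗᵢ[𝕜] X)) : ∃ N : Seminorm 𝕜 X,
      (∃ a b : ℝ, 0 < a ∧ 0 < b ∧ ∀ x, a * ‖x‖ ≤ N x ∧ N x ≤ b * ‖x‖) ∧
      (∀ g x, N (ρ g x) = N x) ∧
      ∀ x, N x = 1 → ∀ ε : ℝ, 0 < ε → ∃ δ : ℝ, 0 < δ ∧ ∀ y, N y = 1 →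
        1 - δ < N ((1 / 2 : 𝕜) • (x + y)) → N (x - y) < ε := by
  classical
  obtain ⟨u, hu⟩ := TopologicalSpace.exists_dense_seq X
  choose f hf1 hf2 using fun n => exists_dual_vector'' 𝕜 (u n)
  have hf3 : ∀ i v, ‖f i v‖ ≤ ‖v‖ := fun i v =>
    ((f i).le_opNorm v).trans (mul_le_of_le_one_left (norm_nonneg _) (hf1 i))
  have hf : ∀ v : X, ‖v‖ = 1 → ∃ i, 1 / 2 < ‖f i v‖ := fun v hv => by
    obtain ⟨i, hi⟩ := Metric.denseRange_iff.1 hu v (1 / 4) (by norm_num)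
    rw [dist_eq_norm] at hi
    have a : ‖f i (u i)‖ = ‖u i‖ := by rw [hf2, RCLike.norm_ofReal, abs_norm]
    have b := hf3 i (v - u i)
    have c := norm_sub_norm_le (f i (u i)) (f i v)
    rw [norm_sub_rev, ← map_sub] at c
    have d := norm_sub_norm_le v (u i)
    exact ⟨i, by linarith⟩
  let E : ℕ → Submodule 𝕜 X := fun n => Submodule.span 𝕜 (u '' Set.Iio n)
  have hE : ∀ n, FiniteDimensional 𝕜 (E n) := fun n =>
    FiniteDimensional.span_of_finite 𝕜 ((Set.finite_Iio n).image u)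
  let q : ℕ × Bool → Seminorm 𝕜 X := fun j =>
    if j.2 then (normSeminorm 𝕜 (X ⧸ E j.1)).comp (E j.1).mkQ
    else (normSeminorm 𝕜 𝕜).comp (f j.1).toLinearMap
  have q1 : ∀ n x, q (n, true) x = ‖(Submodule.Quotient.mk x : X ⧸ E n)‖ := fun n x => rfl
  have q2 : ∀ n x, q (n, false) x = ‖f n x‖ := fun n x => rfl
  have q3 : ∀ n x η, q (n, true) x < η → ∃ e ∈ E n, ‖x - e‖ < η := fun n x η h => by
    obtain ⟨m, h1, h2⟩ := Submodule.Quotient.norm_mk_lt (Submodule.Quotient.mk x : X ⧸ E n)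
      (sub_pos.2 h)
    refine ⟨x - m, (Submodule.Quotient.eq _).1 h1.symm, ?_⟩
    rw [sub_sub_cancel]
    rw [q1] at h2
    linarith
  have q4 : ∀ j x, q j x ≤ ‖x‖ := by
    rintro ⟨n, _ | _⟩ x
    · exact hf3 n x
    · exact Submodule.Quotient.norm_mk_le _ x
  have q5 : ∀ x, q (0, true) x = ‖x‖ := fun x => by
    refine le_antisymm (q4 _ _) (le_of_forall_gt fun η h => ?_)
    obtain ⟨e, he, h2⟩ := q3 0 x η h
    have : e = 0 := by simpa [E] using he
    simpa [this] using h2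
  let p : G × (ℕ × Bool) → Seminorm 𝕜 X := fun i => (q i.2).comp (ρ i.1).toLinearEquiv.toLinearMap
  have p1 : ∀ g j x, p (g, j) x = q j (ρ g x) := fun g j x => rfl
  have p2 : ∀ j x, p (1, j) x = q j x := fun j x => by rw [p1, map_one]; rfl
  let w : G × (ℕ × Bool) → ℝ := fun i => 1 * ((1 / 2) ^ i.2.1 * 1)
  have hw : ∀ i, 0 < w i := fun i => by positivity
  have hs : Summable w :=
    Summable.mul_of_nonneg (f := fun _ : G => (1 : ℝ))
      (g := fun j : ℕ × Bool => (1 / 2 : ℝ) ^ j.1 * 1) Summable.of_finite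
      (Summable.mul_of_nonneg (f := fun n : ℕ => (1 / 2 : ℝ) ^ n) (g := fun _ : Bool => (1 : ℝ))
        summable_geometric_two Summable.of_finite (fun _ => by positivity) fun _ => zero_le_one)
      (fun _ => zero_le_one) fun _ => by positivity
  obtain ⟨N, n1, n2, n3, n4⟩ := kd_l2 w (fun i => (hw i).le) hs p
    (fun i x => (q4 _ _).trans ((ρ i.1).norm_map x).le) (1, 0, true) (by simp [w])
    (fun x => by rw [p2, q5])
  have hb : 0 < √(∑' i, w i) := Real.sqrt_pos.2 (hs.tsum_pos (fun i => (hw i).le) _ (hw (1, 0, true)))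
  generalize √(∑' i, w i) = b at hb n3
  refine ⟨N, ⟨1, b, one_pos, hb, fun x => ⟨by rw [one_mul]; exact n2 x, n3 x⟩⟩, fun g x => ?_,
    fun x hx ε hε => ?_⟩
  · refine (pow_left_inj₀ (apply_nonneg _ _) (apply_nonneg _ _) two_ne_zero).1 ?_
    rw [n1, n1, ← ((Equiv.mulRight g).prodCongr (Equiv.refl (ℕ × Bool))).tsum_eq
      fun i => w i * p i x ^ 2]
    refine tsum_congr fun i => ?_
    show w i * q i.2 (ρ i.1 (ρ g x)) ^ 2 = w i * q i.2 (ρ (i.1 * g) x) ^ 2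
    rw [map_mul]
    rfl
  · obtain ⟨η, hη⟩ : ∃ η : ℝ, η = ε / (12 * b) := ⟨_, rfl⟩
    have η0 : 0 < η := by rw [hη]; positivity
    obtain ⟨j, hj⟩ := Metric.denseRange_iff.1 hu x η η0
    rw [dist_eq_norm] at hj
    have hu1 : u j ∈ E (j + 1) := Submodule.subset_span ⟨j, Nat.lt_succ_self j, rfl⟩
    have hx1 : q (j + 1, true) x < η := by
      have : (Submodule.Quotient.mk x : X ⧸ E (j + 1)) = Submodule.Quotient.mk (x - u j) :=
        (Submodule.Quotient.eq _).2 (by simpa using hu1)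
      rw [q1, this]
      exact (Submodule.Quotient.norm_mk_le _ _).trans_lt hj
    obtain ⟨M, hM⟩ := kd_fin (E (j + 1)) f hf
    obtain ⟨r, hr⟩ : ∃ r : ℝ, r = (1 / 2) ^ (M + j + 1) := ⟨_, rfl⟩
    have r0 : 0 < r := by rw [hr]; positivity
    refine ⟨min 1 (r * η ^ 2 / 8), by positivity, fun y hy hxy => ?_⟩
    have d1 := min_le_left 1 (r * η ^ 2 / 8)
    have d2 := min_le_right 1 (r * η ^ 2 / 8)
    have d0 : 0 < min 1 (r * η ^ 2 / 8) := by positivity
    generalize min 1 (r * η ^ 2 / 8) = δ at *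
    rw [map_smul_eq_mul, norm_div, norm_one, RCLike.norm_two] at hxy
    have hD : 2 * N x ^ 2 + 2 * N y ^ 2 - N (x + y) ^ 2 < r * η ^ 2 := by
      rw [hx, hy]
      nlinarith
    have key : ∀ i ≤ M + j + 1, ∀ s : Bool,
        2 * q (i, s) x ^ 2 + 2 * q (i, s) y ^ 2 - q (i, s) (x + y) ^ 2 < η ^ 2 := by
      intro i hi s
      have a := (n4 x y (1, i, s)).trans_lt hD
      rw [p2, p2, p2] at a
      have c : r ≤ w (1, i, s) := by
        simp only [w, one_mul, mul_one, hr]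
        exact pow_le_pow_of_le_one (by norm_num) (by norm_num) hi
      by_contra hc
      have := mul_le_mul c (not_lt.1 hc) (sq_nonneg _) (hw _).le
      linarith
    have hy1 : q (j + 1, true) y < 2 * η := by
      have a := key (j + 1) (by omega) true
      have d : q (j + 1, true) (x + y) ^ 2 ≤ (q (j + 1, true) x + q (j + 1, true) y) ^ 2 :=
        pow_le_pow_left₀ (apply_nonneg _ _) (map_add_le_add _ _ _) 2
      have e : (q (j + 1, true) y - q (j + 1, true) x) ^ 2 < η ^ 2 := by nlinarith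
      have := (abs_lt.1 (abs_lt_of_sq_lt_sq e η0.le)).2
      linarith
    obtain ⟨e, he, h2⟩ := q3 _ _ _ hy1
    obtain ⟨i, hi, h3⟩ := hM (u j - e) ((E (j + 1)).sub_mem hu1 he)
    have h4 : ‖f i (x - y)‖ < η := by
      have a := key i (by omega) false
      rw [q2, q2, q2, map_add] at a
      have c := parallelogram_law_with_norm 𝕜 (f i x) (f i y)
      rw [map_sub]
      exact lt_of_pow_lt_pow_left₀ 2 η0.le (by nlinarith)
    have h5 : ‖(x - u j) - (y - e)‖ < 3 * η := (norm_sub_le _ _).trans_lt (by linarith)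
    have h6 : x - y = (u j - e) + ((x - u j) - (y - e)) := by abel
    have h7 : ‖f i (u j - e)‖ ≤ ‖f i (x - y)‖ + ‖f i ((x - u j) - (y - e))‖ := by
      rw [eq_sub_of_add_eq h6.symm, map_sub (f i) (x - y)]
      exact norm_sub_le _ _
    have h8 := hf3 i ((x - u j) - (y - e))
    have h9 : ‖x - y‖ ≤ ‖u j - e‖ + ‖(x - u j) - (y - e)‖ := h6 ▸ norm_add_le _ _
    have h10 : ‖x - y‖ < 12 * η := by linarith
    have h11 : b * (12 * η) = ε := by rw [hη]; field_simp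
    exact (n3 _).trans_lt (h11 ▸ mul_lt_mul_of_pos_left h10 hb)

end Pool.Agent.FS.NoLUR
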