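import Mathlib

/-! In an infinite abelian group there is a sequence none of whose terms is a short word in the
others, and the capped word lengths attached to it. -/

set_option autoImplicit false

open Pointwise

namespace Pool.Agent.FS.NoLUR

variable {A : Type} [CommGroup A]

theorem nl_avoid [Infinite A] (B : Finset A) (P : Finset (ℤ × A)) (hP : ∀ p ∈ P, p.2 ≠ 1) :
    ∃ x : A, x ∉ B ∧ ∀ p ∈ P, x ^ p.1 ≠ p.2 := by
  classical
  by_contra hc
  push Not at hc
  let c : A ⊕ (ℤ × A) → A := fun i => match i with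
    | .inl b => b
    | .inr p => if h : ∃ x : A, x ^ p.1 = p.2 then h.choose else 1
  let H : A ⊕ (ℤ × A) → Subgroup A := fun i => match i with
    | .inl _ => ⊥
    | .inr p => if ∃ x : A, x ^ p.1 = p.2 then (zpowGroupHom p.1 : A →* A).ker else ⊥
  have hcov : ⋃ i ∈ B.disjSum P, c i • (H i : Set A) = Set.univ := by
    refine Set.eq_univ_of_forall fun x => ?_
    simp only [Set.mem_iUnion]
    by_cases hx : x ∈ B
    · exact ⟨.inl x, by simpa using hx, 1, (H (.inl x)).one_mem, by simp [c]⟩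
    · obtain ⟨p, hp, e⟩ := hc x hx
      have h : ∃ x : A, x ^ p.1 = p.2 := ⟨x, e⟩
      refine ⟨.inr p, by simpa using hp, (c (.inr p))⁻¹ * x, ?_, by simp⟩
      simp only [H, c, if_pos h, dif_pos h, SetLike.mem_coe, MonoidHom.mem_ker, zpowGroupHom_apply]
      rw [mul_zpow, inv_zpow, h.choose_spec, e, inv_mul_cancel]
  have h1 := Subgroup.leftCoset_cover_filter_FiniteIndex hcov
  have h2 : (1 : A) ∈ ⋃ k ∈ (B.disjSum P).filter (fun i => (H i).FiniteIndex),
      c k • (H k : Set A) := by rw [h1]; trivial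
  simp only [Set.mem_iUnion] at h2
  obtain ⟨i, hi, y, hy, e⟩ := h2
  obtain ⟨hi1, hi2⟩ := Finset.mem_filter.1 hi
  have hb : ¬ (⊥ : Subgroup A).FiniteIndex := fun h => by
    have := h.index_ne_zero
    rw [Subgroup.index_bot] at this
    exact this Nat.card_eq_zero_of_infinite
  rcases i with b | p
  · exact hb hi2
  · by_cases h : ∃ x : A, x ^ p.1 = p.2
    · simp only [H, if_pos h, SetLike.mem_coe, MonoidHom.mem_ker, zpowGroupHom_apply] at hy
      simp only [c, dif_pos h, smul_eq_mul] at e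
      have e2 := congrArg (fun z : A => z ^ p.1) e
      simp only [mul_zpow, h.choose_spec, hy, one_zpow, mul_one] at e2
      exact hP p (by simpa using hi1) e2
    · simp only [H, if_neg h] at hi2
      exact hb hi2

/-- no term below `K` is a short word in the other terms below `K` -/
def Inv (K : ℕ) (g : ℕ → A) : Prop :=
  ∀ m < K, ∀ n : ℕ → ℤ, (∀ k, |n k| ≤ 2 ^ k) → n m = 0 → g m ≠ ∏ k ∈ Finset.range K, g k ^ n k

theorem nl_fin (K : ℕ) (g : ℕ → A) :
    {u : A | ∃ n : ℕ → ℤ, (∀ k, |n k| ≤ 2 ^ k) ∧ u = ∏ k ∈ Finset.range K, g k ^ n k}.Finite := by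
  induction K with
  | zero => exact (Set.finite_singleton 1).subset (by rintro u ⟨n, -, rfl⟩; simp)
  | succ K ih =>
    refine (ih.image2 (fun u (c : ℤ) => u * g K ^ c) (Set.finite_Icc (-2 ^ K) (2 ^ K))).subset ?_
    rintro u ⟨n, hn, rfl⟩
    exact ⟨_, ⟨n, hn, rfl⟩, n K, abs_le.1 (hn K), (Finset.prod_range_succ _ _).symm⟩

theorem nl_step [Infinite A] (K : ℕ) (g : ℕ → A) (h : Inv K g) :
    ∃ x, Inv (K + 1) (Function.update g K x) := by
  classical
  let B := (nl_fin K g).toFinset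
  let P : Finset (ℤ × A) := ((Finset.Icc (-2 ^ K : ℤ) (2 ^ K)) ×ˢ
    (((Finset.range K) ×ˢ B).image fun q => g q.1 * q.2⁻¹)).filter fun p => p.2 ≠ 1
  obtain ⟨x, hx, hp⟩ := nl_avoid B P fun p hp => (Finset.mem_filter.1 hp).2
  refine ⟨x, fun m hm n hn h0 e => ?_⟩
  have e1 : ∏ k ∈ Finset.range K, Function.update g K x k ^ n k =
      ∏ k ∈ Finset.range K, g k ^ n k :=
    Finset.prod_congr rfl fun k hk => by
      rw [Function.update_of_ne (Finset.mem_range.1 hk).ne]
  rw [Finset.prod_range_succ, e1, Function.update_self] at e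
  have hB : ∏ k ∈ Finset.range K, g k ^ n k ∈ B := (Set.Finite.mem_toFinset _).2 ⟨n, hn, rfl⟩
  rcases (Nat.lt_succ_iff.1 hm).lt_or_eq with hm | rfl
  · rw [Function.update_of_ne hm.ne] at e
    refine hp (n K, g m * (∏ k ∈ Finset.range K, g k ^ n k)⁻¹) ?_ ?_
    · refine Finset.mem_filter.2 ⟨Finset.mem_product.2 ⟨Finset.mem_Icc.2 (abs_le.1 (hn K)),
        Finset.mem_image.2 ⟨(m, _), Finset.mem_product.2 ⟨Finset.mem_range.2 hm, hB⟩, rfl⟩⟩, ?_⟩
      exact fun e2 => h m hm n hn h0 (mul_inv_eq_one.1 e2)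
    · show x ^ n K = _
      rw [e, mul_inv_cancel_comm]
  · rw [Function.update_self, h0, zpow_zero, mul_one] at e
    exact hx (e ▸ hB)

theorem nl_seq [Infinite A] : ∃ g : ℕ → A, ∀ K, Inv K g := by
  choose X hX using nl_step (A := A)
  let s : (K : ℕ) → {g : ℕ → A // Inv K g} := fun K =>
    Nat.rec ⟨fun _ => 1, fun m hm => absurd hm (Nat.not_lt_zero m)⟩
      (fun K p => ⟨Function.update p.1 K (X K p.1 p.2), hX K p.1 p.2⟩) K
  have hs : ∀ K k, k < K → (s K).1 k = (s (k + 1)).1 k := by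
    intro K
    induction K with
    | zero => exact fun k hk => absurd hk (Nat.not_lt_zero k)
    | succ K ih =>
      intro k hk
      rcases (Nat.lt_succ_iff.1 hk).lt_or_eq with hk | rfl
      · rw [← ih k hk]
        exact Function.update_of_ne hk.ne _ _
      · rfl
  refine ⟨fun k => (s (k + 1)).1 k, fun K m hm n hn h0 e => (s K).2 m hm n hn h0 ?_⟩
  rw [hs K m hm]
  exact e.trans (Finset.prod_congr rfl fun k hk => by rw [hs K k (Finset.mem_range.1 hk)])

theorem nl_word (g : ℕ → A) (m : ℕ) (L : List (ℕ × ℤ)) (hL : ∀ p ∈ L, p.1 ≠ m) :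
    ∃ n : ℕ → ℤ, n m = 0 ∧
      (∀ k, (|n k| : ℝ) / 2 ^ k ≤ (L.map fun p => (|p.2| : ℝ) / 2 ^ p.1).sum) ∧
      ∃ K0, ∀ K, K0 ≤ K → (L.map fun p => g p.1 ^ p.2).prod = ∏ k ∈ Finset.range K, g k ^ n k := by
  induction L with
  | nil => exact ⟨fun _ => 0, rfl, by simp, 0, by simp⟩
  | cons p L ih =>
    obtain ⟨n, h0, h1, K0, h2⟩ := ih fun q hq => hL q (List.mem_cons_of_mem _ hq)
    have hp := hL p List.mem_cons_self
    refine ⟨fun k => (if k = p.1 then p.2 else 0) + n k, by simp [h0, hp.symm], fun k => ?_,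
      max K0 (p.1 + 1), fun K hK => ?_⟩
    · rw [List.map_cons, List.sum_cons]
      have h3 := h1 k
      by_cases e : k = p.1
      · subst e
        simp only [if_true]
        have h4 : (|((p.2 + n p.1 : ℤ) : ℝ)|) ≤ |(p.2 : ℝ)| + |(n p.1 : ℝ)| := by
          push_cast
          exact abs_add_le _ _
        have h5 : (|((p.2 + n p.1 : ℤ) : ℝ)|) / 2 ^ p.1 ≤ (|(p.2 : ℝ)| + |(n p.1 : ℝ)|) / 2 ^ p.1 := by
          gcongr
        rw [add_div] at h5
        linarith
      · simp only [if_neg e, zero_add]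
        have : (0 : ℝ) ≤ |(p.2 : ℝ)| / 2 ^ p.1 := by positivity
        linarith
    · rw [List.map_cons, List.prod_cons, h2 K (le_of_max_le_left hK)]
      simp only [zpow_add, Finset.prod_mul_distrib]
      congr 1
      rw [Finset.prod_eq_single p.1]
      · simp
      · intro b _ hb
        simp [hb]
      · intro hb
        exact absurd (Finset.mem_range.2 (le_of_max_le_right hK)) hb

theorem nl_len [Infinite A] : ∃ (g : ℕ → A) (l : ℕ → A → ℝ), (∀ m x, 0 ≤ l m x ∧ l m x ≤ 1) ∧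
    (∀ m, l m 1 = 0) ∧ (∀ m, l m (g m) = 1) ∧
    ∀ m k x, k ≠ m → |l m (x * g k) - l m x| ≤ 1 / 2 ^ k := by
  obtain ⟨g, hg⟩ := nl_seq (A := A)
  let S : ℕ → A → Set ℝ := fun m x => {t | t = 1 ∨ ∃ L : List (ℕ × ℤ), (∀ p ∈ L, p.1 ≠ m) ∧
    (L.map fun p => g p.1 ^ p.2).prod = x ∧ t = (L.map fun p => (|p.2| : ℝ) / 2 ^ p.1).sum}
  have hne : ∀ m x, (S m x).Nonempty := fun m x => ⟨1, .inl rfl⟩
  have hnn : ∀ m x, ∀ t ∈ S m x, 0 ≤ t := by
    rintro m x t (rfl | ⟨L, -, -, rfl⟩)
    · exact zero_le_one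
    · refine List.sum_nonneg fun y hy => ?_
      obtain ⟨p, -, rfl⟩ := List.mem_map.1 hy
      positivity
  have hbd : ∀ m x, BddBelow (S m x) := fun m x => ⟨0, hnn m x⟩
  have hle : ∀ m x, sInf (S m x) ≤ 1 := fun m x => csInf_le (hbd m x) (.inl rfl)
  have hge : ∀ m x, 0 ≤ sInf (S m x) := fun m x => le_csInf (hne m x) (hnn m x)
  have hlip : ∀ m k x (c : ℤ), k ≠ m → |(c : ℝ)| = 1 →
      sInf (S m (x * g k ^ c)) - 1 / 2 ^ k ≤ sInf (S m x) := by
    intro m k x c hk hc
    refine le_csInf (hne m x) ?_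
    rintro t (rfl | ⟨L, h1, rfl, rfl⟩)
    · have := hle m (x * g k ^ c)
      have : (0 : ℝ) ≤ 1 / 2 ^ k := by positivity
      linarith
    · rw [sub_le_iff_le_add]
      refine csInf_le (hbd _ _) (.inr ⟨(k, c) :: L, ?_, ?_, ?_⟩)
      · intro p hp
        rcases List.mem_cons.1 hp with rfl | hp
        · exact hk
        · exact h1 p hp
      · rw [List.map_cons, List.prod_cons, mul_comm]
      · rw [List.map_cons, List.sum_cons, hc, add_comm]
  refine ⟨g, fun m x => sInf (S m x), fun m x => ⟨hge m x, hle m x⟩, fun m => ?_, fun m => ?_,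
    fun m k x hk => ?_⟩
  · exact le_antisymm (csInf_le (hbd m 1) (.inr ⟨[], by simp, by simp, by simp⟩)) (hge m 1)
  · refine le_antisymm (hle _ _) (le_csInf (hne _ _) ?_)
    rintro t (rfl | ⟨L, h1, h2, rfl⟩)
    · exact le_rfl
    · by_contra hlt
      obtain ⟨n, h0, h3, K0, h4⟩ := nl_word g m L h1
      refine hg (max K0 (m + 1)) m (lt_of_lt_of_le (Nat.lt_succ_self m) (le_max_right _ _)) n
        (fun k => ?_) h0 (h2.symm.trans (h4 _ (le_max_left _ _)))
      have h5 := (h3 k).trans (not_le.1 hlt).le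
      rw [div_le_one (by positivity)] at h5
      exact_mod_cast h5
  · have h1 := hlip m k x 1 hk (by simp)
    have h2 := hlip m k (x * g k) (-1) hk (by simp)
    rw [zpow_one] at h1
    rw [zpow_neg_one, mul_inv_cancel_right] at h2
    rw [abs_le]
    constructor <;> linarith

end Pool.Agent.FS.NoLUR
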